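import Mathlib

/-!
# Generic (black-box) query programs

The numbers are the elements of a finite field `F` (in the application the residues modulo a prime
`N`); a program never sees a number, it only sees labels, elements of `L`.  A labelling is a
bijection `σ : F ≃ L`.
-/

namespace Pool.Agent.H93.Gen

/-- A query program which works with labels `L` of hidden numbers `F`.
* `answer b`: stop with the answer `b`;
* `lin c₀ c₁ c₂ u v k`: obtain the label `l` of `c₀ + c₁ x + c₂ y`, where `x`, `y` are the numbers
  with labels `u`, `v`, and continue with `k l`;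
* `mul u v k`: obtain the label `l` of `x y` and continue with `k l`. -/
inductive Prog (F L : Type) : Type
  | answer (b : Bool) : Prog F L
  | lin (c₀ c₁ c₂ : F) (u v : L) (k : L → Prog F L) : Prog F L
  | mul (u v : L) (k : L → Prog F L) : Prog F L

/-- The answer of a program when the numbers are labelled by `σ`. -/
def Prog.run {F L : Type} [Field F] (σ : F ≃ L) : Prog F L → Bool
  | .answer b => b
  | .lin c₀ c₁ c₂ u v k => (k (σ (c₀ + c₁ * σ.symm u + c₂ * σ.symm v))).run σ
  | .mul u v k => (k (σ (σ.symm u * σ.symm v))).run σ

/-- `Prog.Cost T m p`: every branch of `p` has at most `T` operations, at most `m` of which are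
multiplications `mul`. -/
inductive Prog.Cost {F L : Type} : ℕ → ℕ → Prog F L → Prop
  | answer (T m : ℕ) (b : Bool) : Prog.Cost T m (.answer b)
  | lin (T m : ℕ) (c₀ c₁ c₂ : F) (u v : L) (k : L → Prog F L) (h : ∀ l, Prog.Cost T m (k l)) :
      Prog.Cost (T + 1) m (.lin c₀ c₁ c₂ u v k)
  | mul (T m : ℕ) (u v : L) (k : L → Prog F L) (h : ∀ l, Prog.Cost T m (k l)) :
      Prog.Cost (T + 1) (m + 1) (.mul u v k)

end Pool.Agent.H93.Gen
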