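import Mathlib
import Pool.Agent.H93.Gen.Defs

/-!
Counting bijections which extend a finite set of pairs.
-/

namespace Pool.Agent.H93.Gen

open Finset

variable {F L : Type} [Fintype F] [DecidableEq F] [Fintype L] [DecidableEq L]

/-- the bijections which contain all pairs of `π` -/
def ext (π : Finset (F × L)) : Finset (F ≃ L) :=
  univ.filter fun σ => ∀ p ∈ π, σ p.1 = p.2

theorem mem_ext {π : Finset (F × L)} {σ : F ≃ L} : σ ∈ ext π ↔ ∀ p ∈ π, σ p.1 = p.2 := by
  simp [ext]

theorem mem_ext_insert {π : Finset (F × L)} {σ : F ≃ L} {p : F × L} :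
    σ ∈ ext (insert p π) ↔ σ p.1 = p.2 ∧ σ ∈ ext π := by
  simp [mem_ext]

theorem ext_empty : ext (∅ : Finset (F × L)) = univ := by
  simp [ext]

/-- total weight of the bijections containing `π` -/
def wt (h : (F ≃ L) → ℝ) (π : Finset (F × L)) : ℝ := ∑ σ ∈ ext π, h σ

theorem wt_nonneg {h : (F ≃ L) → ℝ} (hh : ∀ σ, 0 ≤ h σ) (π : Finset (F × L)) : 0 ≤ wt h π :=
  sum_nonneg fun σ _ => hh σ

theorem wt_congr {h h' : (F ≃ L) → ℝ} {π : Finset (F × L)} (H : ∀ σ ∈ ext π, h σ = h' σ) :
    wt h π = wt h' π := sum_congr rfl H

/-- split according to the number with label `u` -/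
theorem wt_label (h : (F ≃ L) → ℝ) (π : Finset (F × L)) (u : L) :
    wt h π = ∑ g : F, wt h (insert (g, u) π) := by
  classical
  unfold wt
  rw [← sum_fiberwise (ext π) (fun σ : F ≃ L => σ.symm u) h]
  refine sum_congr rfl fun g _ => ?_
  refine sum_congr ?_ fun _ _ => rfl
  ext σ
  simp only [mem_filter, mem_ext_insert]
  constructor
  · rintro ⟨h1, h2⟩
    exact ⟨by rw [← h2]; simp, h1⟩
  · rintro ⟨h1, h2⟩
    exact ⟨h2, by rw [← h1]; simp⟩

/-- split according to the label of the number `g` -/
theorem wt_elem (h : (F ≃ L) → ℝ) (π : Finset (F × L)) (g : F) :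
    wt h π = ∑ l : L, wt h (insert (g, l) π) := by
  classical
  unfold wt
  rw [← sum_fiberwise (ext π) (fun σ : F ≃ L => σ g) h]
  refine sum_congr rfl fun l _ => ?_
  refine sum_congr ?_ fun _ _ => rfl
  ext σ
  simp only [mem_filter, mem_ext_insert]
  tauto

/-- the pairs of `π` have distinct first and distinct second coordinates -/
def IsPB (π : Finset (F × L)) : Prop :=
  ∀ p ∈ π, ∀ q ∈ π, p ≠ q → p.1 ≠ q.1 ∧ p.2 ≠ q.2

theorem isPB_insert {π : Finset (F × L)} {g : F} {u : L} (h : IsPB π)
    (hg : ∀ p ∈ π, p.1 ≠ g) (hu : ∀ p ∈ π, p.2 ≠ u) : IsPB (insert (g, u) π) := by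
  intro p hp q hq hpq
  rw [mem_insert] at hp hq
  rcases hp with rfl | hp <;> rcases hq with rfl | hq
  · exact absurd rfl hpq
  · exact ⟨(hg q hq).symm, (hu q hq).symm⟩
  · exact ⟨hg p hp, hu p hp⟩
  · exact h p hp q hq hpq

theorem IsPB.subset {π π' : Finset (F × L)} (h : IsPB π') (hs : π ⊆ π') : IsPB π :=
  fun p hp q hq => h p (hs hp) q (hs hq)

theorem isPB_of_mem_ext {π : Finset (F × L)} {σ : F ≃ L} (h : σ ∈ ext π) : IsPB π := by
  rw [mem_ext] at h
  intro p hp q hq hpq
  constructor
  · intro he
    apply hpq
    refine Prod.ext he ?_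
    rw [← h p hp, ← h q hq, he]
  · intro he
    apply hpq
    refine Prod.ext ?_ he
    apply σ.injective
    rw [h p hp, h q hq, he]

theorem IsPB.card_le {π : Finset (F × L)} (h : IsPB π) : π.card ≤ Fintype.card L := by
  have : (π.image Prod.snd).card = π.card := by
    refine card_image_of_injOn ?_
    intro p hp q hq he
    by_contra hne
    exact (h p hp q hq hne).2 he
  rw [← this]
  exact card_le_univ _

theorem IsPB.card_image_fst {π : Finset (F × L)} (h : IsPB π) :
    (π.image Prod.fst).card = π.card := by
  refine card_image_of_injOn ?_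
  intro p hp q hq he
  by_contra hne
  exact (h p hp q hq hne).1 he

theorem IsPB.card_image_snd {π : Finset (F × L)} (h : IsPB π) :
    (π.image Prod.snd).card = π.card := by
  refine card_image_of_injOn ?_
  intro p hp q hq he
  by_contra hne
  exact (h p hp q hq hne).2 he

theorem card_ext_full {π : Finset (F × L)} (h : IsPB π) (hFL : Fintype.card F = Fintype.card L)
    (hc : π.card = Fintype.card L) : (ext π).card = 1 := by
  have h1 : π.image Prod.fst = univ := by
    apply eq_univ_of_card
    rw [h.card_image_fst, hc, hFL]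
  have h2 : π.image Prod.snd = univ := by
    apply eq_univ_of_card
    rw [h.card_image_snd, hc]
  have b1 : Function.Bijective (fun p : π => p.1.1) := by
    constructor
    · intro p q he
      by_contra hne
      exact (h p.1 p.2 q.1 q.2 (fun e => hne (Subtype.ext e))).1 he
    · intro g
      have : g ∈ π.image Prod.fst := by rw [h1]; exact mem_univ _
      obtain ⟨p, hp, rfl⟩ := mem_image.1 this
      exact ⟨⟨p, hp⟩, rfl⟩
  have b2 : Function.Bijective (fun p : π => p.1.2) := by
    constructor
    · intro p q he
      by_contra hne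
      exact (h p.1 p.2 q.1 q.2 (fun e => hne (Subtype.ext e))).2 he
    · intro g
      have : g ∈ π.image Prod.snd := by rw [h2]; exact mem_univ _
      obtain ⟨p, hp, rfl⟩ := mem_image.1 this
      exact ⟨⟨p, hp⟩, rfl⟩
  rw [card_eq_one]
  refine ⟨(Equiv.ofBijective _ b1).symm.trans (Equiv.ofBijective _ b2), ?_⟩
  ext σ
  rw [mem_singleton]
  constructor
  · intro hσ
    rw [mem_ext] at hσ
    ext g
    obtain ⟨p, hp⟩ := b1.2 g
    simp only at hp
    subst hp
    rw [hσ p.1 p.2]
    have : (Equiv.ofBijective _ b1).symm p.1.1 = p := by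
      rw [Equiv.symm_apply_eq]
      rfl
    simp only [Equiv.trans_apply, this]
    rfl
  · rintro rfl
    rw [mem_ext]
    intro p hp
    have : (Equiv.ofBijective _ b1).symm p.1 = ⟨p, hp⟩ := by
      rw [Equiv.symm_apply_eq]
      rfl
    simp only [Equiv.trans_apply, this]
    rfl

theorem card_ext {π : Finset (F × L)} (h : IsPB π) (hFL : Fintype.card F = Fintype.card L) :
    ((ext π).card : ℝ) = (Fintype.card L - π.card).factorial := by
  obtain ⟨d, hd⟩ : ∃ d, d = Fintype.card L - π.card := ⟨_, rfl⟩
  induction d generalizing π with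
  | zero =>
    have := h.card_le
    rw [card_ext_full h hFL (by omega), ← hd]
    simp
  | succ d ih =>
    have hlt : π.card < Fintype.card L := by omega
    obtain ⟨u, hu⟩ : ∃ u : L, u ∉ π.image Prod.snd := by
      by_contra hcon
      push Not at hcon
      have : (π.image Prod.snd) = univ := by
        ext u; simp only [mem_univ, iff_true]; exact hcon u
      have h3 := h.card_image_snd
      rw [this, card_univ] at h3
      omega
    have hu' : ∀ p ∈ π, p.2 ≠ u := by
      intro p hp he
      exact hu (mem_image.2 ⟨p, hp, he⟩)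
    have e1 : ((ext π).card : ℝ) = wt (fun _ => 1) π := by simp [wt]
    rw [e1, wt_label _ _ u]
    have e2 : ∀ g : F, wt (fun _ => (1 : ℝ)) (insert (g, u) π) =
        if g ∈ π.image Prod.fst then 0 else (d.factorial : ℝ) := by
      intro g
      split_ifs with hg
      · obtain ⟨p, hp, rfl⟩ := mem_image.1 hg
        have : ext (insert (p.1, u) π) = ∅ := by
          rw [eq_empty_iff_forall_notMem]
          intro σ hσ
          rw [mem_ext_insert, mem_ext] at hσ
          have h5 := hσ.2 p hp
          rw [hσ.1] at h5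
          exact hu' p hp h5.symm
        simp [wt, this]
      · have hg' : ∀ p ∈ π, p.1 ≠ g := by
          intro p hp he
          exact hg (mem_image.2 ⟨p, hp, he⟩)
        have hpb := isPB_insert h hg' hu'
        have hcard : (insert (g, u) π).card = π.card + 1 := by
          apply card_insert_of_notMem
          intro hmem
          exact hg' _ hmem rfl
        have := ih hpb (by rw [hcard]; omega)
        simp only [wt, sum_const, nsmul_eq_mul, mul_one]
        rw [this, hcard]
        have h6 : Fintype.card L - (π.card + 1) = d := by omega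
        rw [h6]
    simp only [e2]
    rw [sum_ite, sum_const_zero, zero_add, sum_const, nsmul_eq_mul]
    have h7 : (univ.filter fun g : F => g ∉ π.image Prod.fst).card = d + 1 := by
      rw [filter_not, filter_mem_eq_inter, univ_inter, ← compl_eq_univ_sdiff, card_compl,
        h.card_image_fst]
      omega
    rw [h7, ← hd, Nat.factorial_succ]
    push_cast
    ring

end Pool.Agent.H93.Gen
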