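import Mathlib
import Pool.Agent.H93.Gen.Count

/-!
A large set `𝓕` of labellings, conditioned on a suitable small set of pairs `π₀`, looks to every
short program almost like all labellings extending `π₀`.
-/

namespace Pool.Agent.H93.Gen

open Finset

variable {F L : Type} [Fintype F] [DecidableEq F] [Fintype L] [DecidableEq L]

/-- indicator of a set of bijections -/
def indS (𝓕 : Finset (F ≃ L)) (σ : F ≃ L) : ℝ := if σ ∈ 𝓕 then 1 else 0

/-- indicator of an answer -/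
def indB (r : (F ≃ L) → Bool) (b : Bool) (σ : F ≃ L) : ℝ := if r σ = b then 1 else 0

theorem indS_nonneg (𝓕 : Finset (F ≃ L)) (σ : F ≃ L) : 0 ≤ indS 𝓕 σ := by
  unfold indS; split_ifs <;> norm_num

theorem indS_le (𝓕 : Finset (F ≃ L)) (σ : F ≃ L) : indS 𝓕 σ ≤ 1 := by
  unfold indS; split_ifs <;> norm_num

theorem indB_nonneg (r : (F ≃ L) → Bool) (b : Bool) (σ : F ≃ L) : 0 ≤ indB r b σ := by
  unfold indB; split_ifs <;> norm_num

theorem indB_le (r : (F ≃ L) → Bool) (b : Bool) (σ : F ≃ L) : indB r b σ ≤ 1 := by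
  unfold indB; split_ifs <;> norm_num

theorem exists_dense (𝓕 : Finset (F ≃ L)) (M : ℝ) (hM : 0 < M)
    (hF : (Fintype.card (F ≃ L) : ℝ) ≤ M * 𝓕.card) (hne : 𝓕.Nonempty) (γ : ℝ) (hγ : 0 < γ) :
    ∃ π₀ : Finset (F × L), 0 < wt (indS 𝓕) π₀ ∧
      (∀ π', π₀ ⊆ π' → γ ^ (π'.card - π₀.card) * wt (indS 𝓕) π' * wt (fun _ => 1) π₀ ≤
        wt (indS 𝓕) π₀ * wt (fun _ => 1) π') ∧ 1 ≤ M * γ ^ π₀.card := by
  classical
  have hle : ∀ π : Finset (F × L), wt (indS 𝓕) π ≤ wt (fun _ => 1) π := by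
    intro π
    exact sum_le_sum fun σ _ => indS_le 𝓕 σ
  have hnn : ∀ π : Finset (F × L), 0 ≤ wt (indS 𝓕) π := fun π => wt_nonneg (indS_nonneg 𝓕) π
  set C : Finset (Finset (F × L)) := univ.filter fun π => 0 < wt (indS 𝓕) π with hC
  have h0 : wt (indS 𝓕) (∅ : Finset (F × L)) = 𝓕.card := by
    simp [wt, ext_empty, indS]
  have h1 : wt (fun _ => (1 : ℝ)) (∅ : Finset (F × L)) = Fintype.card (F ≃ L) := by
    simp [wt, ext_empty]
  have hpos : (0 : ℝ) < 𝓕.card := by exact_mod_cast hne.card_pos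
  have hCne : (∅ : Finset (F × L)) ∈ C := by
    rw [hC, mem_filter]
    exact ⟨mem_univ _, by rw [h0]; exact hpos⟩
  obtain ⟨π₀, hπ₀, hmax⟩ := exists_max_image C
    (fun π => wt (indS 𝓕) π * γ ^ π.card / wt (fun _ => 1) π) ⟨∅, hCne⟩
  rw [hC, mem_filter] at hπ₀
  have hf0 := hπ₀.2
  have he0 : 0 < wt (fun _ => (1 : ℝ)) π₀ := lt_of_lt_of_le hf0 (hle π₀)
  refine ⟨π₀, hf0, ?_, ?_⟩
  · intro π' hsub
    rcases (hnn π').eq_or_lt with h | h
    · rw [← h]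
      simp only [mul_zero, zero_mul]
      exact mul_nonneg hf0.le ((hnn π').trans (hle π'))
    · have he' : 0 < wt (fun _ => (1 : ℝ)) π' := lt_of_lt_of_le h (hle π')
      have := hmax π' (by rw [hC, mem_filter]; exact ⟨mem_univ _, h⟩)
      rw [div_le_div_iff₀ he' he0] at this
      have hcard : π₀.card ≤ π'.card := card_le_card hsub
      have hsplit : γ ^ π'.card = γ ^ (π'.card - π₀.card) * γ ^ π₀.card := by
        rw [← pow_add]; congr 1; omega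
      rw [hsplit] at this
      have hg : 0 < γ ^ π₀.card := pow_pos hγ _
      nlinarith [this]
  · have := hmax ∅ hCne
    rw [h0, h1] at this
    simp only [card_empty, pow_zero, mul_one] at this
    have hcard : (0 : ℝ) < Fintype.card (F ≃ L) := by
      have : 0 < wt (fun _ => (1 : ℝ)) (∅ : Finset (F × L)) := by
        refine lt_of_lt_of_le ?_ (hle ∅)
        rw [h0]; exact hpos
      rwa [h1] at this
    rw [div_le_div_iff₀ hcard he0] at this
    -- 𝓕.card * e₀ ≤ f₀ γ^.. * card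
    have hg : 0 < γ ^ π₀.card := pow_pos hγ _
    have h2 : (𝓕.card : ℝ) * wt (fun _ => 1) π₀ ≤
        (wt (fun _ => 1) π₀ * γ ^ π₀.card) * (M * 𝓕.card) := by
      refine this.trans ?_
      refine mul_le_mul ?_ hF hcard.le (mul_nonneg he0.le hg.le)
      exact mul_le_mul_of_nonneg_right (hle π₀) hg.le
    have h3 : (𝓕.card * wt (fun _ => (1 : ℝ)) π₀) * 1 ≤
        (𝓕.card * wt (fun _ => (1 : ℝ)) π₀) * (M * γ ^ π₀.card) := by
      calc (𝓕.card * wt (fun _ => (1 : ℝ)) π₀) * 1 = 𝓕.card * wt (fun _ => 1) π₀ := mul_one _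
        _ ≤ _ := h2
        _ = _ := by ring
    exact le_of_mul_le_mul_left h3 (mul_pos hpos he0)

/-- the transfer property with exponent `t` -/
def TP (𝓕 : Finset (F ≃ L)) (γ : ℝ) (π₀ : Finset (F × L)) (t : ℕ) (r : (F ≃ L) → Bool) : Prop :=
  ∀ b π', π₀ ⊆ π' →
    γ ^ (π'.card - π₀.card + t) * wt (fun σ => indS 𝓕 σ * indB r b σ) π' * wt (fun _ => 1) π₀ ≤
      wt (indS 𝓕) π₀ * wt (indB r b) π'

theorem TP.mono {𝓕 : Finset (F ≃ L)} {γ : ℝ} {π₀ : Finset (F × L)} {t t' : ℕ}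
    {r : (F ≃ L) → Bool} (hγ : 0 ≤ γ) (hγ1 : γ ≤ 1) (h : TP 𝓕 γ π₀ t r) (htt : t ≤ t') :
    TP 𝓕 γ π₀ t' r := by
  intro b π' hsub
  refine le_trans ?_ (h b π' hsub)
  refine mul_le_mul_of_nonneg_right (mul_le_mul_of_nonneg_right ?_ ?_) ?_
  · exact pow_le_pow_of_le_one hγ hγ1 (by omega)
  · exact wt_nonneg (fun σ => mul_nonneg (indS_nonneg _ _) (indB_nonneg _ _ _)) _
  · exact wt_nonneg (fun _ => zero_le_one) _

theorem TP.congr {𝓕 : Finset (F ≃ L)} {γ : ℝ} {π₀ : Finset (F × L)} {t : ℕ}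
    {r r' : (F ≃ L) → Bool} (h : TP 𝓕 γ π₀ t r) (e : ∀ σ, r σ = r' σ) : TP 𝓕 γ π₀ t r' := by
  have : r = r' := funext e
  rwa [← this]

/-- one exposed label: if the answers are `r' x` when the number with label `u` is `x` -/
theorem TP.label {𝓕 : Finset (F ≃ L)} {γ : ℝ} {π₀ : Finset (F × L)} {t : ℕ}
    (hγ : 0 ≤ γ) (hγ1 : γ ≤ 1) (u : L) (r : F → (F ≃ L) → Bool)
    (h : ∀ x, TP 𝓕 γ π₀ t (r x)) : TP 𝓕 γ π₀ (t + 1) (fun σ => r (σ.symm u) σ) := by
  intro b π' hsub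
  rw [wt_label _ π' u, wt_label (indB _ b) π' u, mul_sum, mul_sum, sum_mul]
  refine sum_le_sum fun x _ => ?_
  have e1 : wt (fun σ => indS 𝓕 σ * indB (fun σ => r (σ.symm u) σ) b σ) (insert (x, u) π') =
      wt (fun σ => indS 𝓕 σ * indB (r x) b σ) (insert (x, u) π') := by
    refine wt_congr fun σ hσ => ?_
    rw [mem_ext_insert] at hσ
    have : σ.symm u = x := (Equiv.symm_apply_eq σ).2 hσ.1.symm
    simp only [indB, this]
  have e2 : wt (indB (fun σ => r (σ.symm u) σ) b) (insert (x, u) π') =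
      wt (indB (r x) b) (insert (x, u) π') := by
    refine wt_congr fun σ hσ => ?_
    rw [mem_ext_insert] at hσ
    have : σ.symm u = x := (Equiv.symm_apply_eq σ).2 hσ.1.symm
    simp only [indB, this]
  rw [e1, e2]
  refine le_trans ?_ (h x b _ (hsub.trans (subset_insert _ _)))
  refine mul_le_mul_of_nonneg_right (mul_le_mul_of_nonneg_right ?_ ?_) ?_
  · refine pow_le_pow_of_le_one hγ hγ1 ?_
    have := card_insert_le (x, u) π'
    have := card_le_card hsub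
    omega
  · exact wt_nonneg (fun σ => mul_nonneg (indS_nonneg _ _) (indB_nonneg _ _ _)) _
  · exact wt_nonneg (fun _ => zero_le_one) _

/-- one exposed number: if the answers are `r' l` when the label of `x` is `l` -/
theorem TP.elem {𝓕 : Finset (F ≃ L)} {γ : ℝ} {π₀ : Finset (F × L)} {t : ℕ}
    (hγ : 0 ≤ γ) (hγ1 : γ ≤ 1) (x : F) (r : L → (F ≃ L) → Bool)
    (h : ∀ l, TP 𝓕 γ π₀ t (r l)) : TP 𝓕 γ π₀ (t + 1) (fun σ => r (σ x) σ) := by
  intro b π' hsub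
  rw [wt_elem _ π' x, wt_elem (indB _ b) π' x, mul_sum, mul_sum, sum_mul]
  refine sum_le_sum fun l _ => ?_
  have e1 : wt (fun σ => indS 𝓕 σ * indB (fun σ => r (σ x) σ) b σ) (insert (x, l) π') =
      wt (fun σ => indS 𝓕 σ * indB (r l) b σ) (insert (x, l) π') := by
    refine wt_congr fun σ hσ => ?_
    rw [mem_ext_insert] at hσ
    have : σ x = l := hσ.1
    simp only [indB, this]
  have e2 : wt (indB (fun σ => r (σ x) σ) b) (insert (x, l) π') =
      wt (indB (r l) b) (insert (x, l) π') := by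
    refine wt_congr fun σ hσ => ?_
    rw [mem_ext_insert] at hσ
    have : σ x = l := hσ.1
    simp only [indB, this]
  rw [e1, e2]
  refine le_trans ?_ (h l b _ (hsub.trans (subset_insert _ _)))
  refine mul_le_mul_of_nonneg_right (mul_le_mul_of_nonneg_right ?_ ?_) ?_
  · refine pow_le_pow_of_le_one hγ hγ1 ?_
    have := card_insert_le (x, l) π'
    have := card_le_card hsub
    omega
  · exact wt_nonneg (fun σ => mul_nonneg (indS_nonneg _ _) (indB_nonneg _ _ _)) _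
  · exact wt_nonneg (fun _ => zero_le_one) _

/-- constant answers -/
theorem TP.const {𝓕 : Finset (F ≃ L)} {γ : ℝ} {π₀ : Finset (F × L)}
    (h : ∀ π', π₀ ⊆ π' → γ ^ (π'.card - π₀.card) * wt (indS 𝓕) π' * wt (fun _ => 1) π₀ ≤
        wt (indS 𝓕) π₀ * wt (fun _ => 1) π') (c : Bool) : TP 𝓕 γ π₀ 0 (fun _ => c) := by
  intro b π' hsub
  by_cases hcb : c = b
  · have e1 : (fun σ : F ≃ L => indS 𝓕 σ * indB (fun _ => c) b σ) = indS 𝓕 := by
      funext σ; simp [indB, hcb]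
    have e2 : (indB (fun _ : F ≃ L => c) b) = fun _ => (1 : ℝ) := by
      funext σ; simp [indB, hcb]
    rw [e1, e2]
    simpa using h π' hsub
  · have e1 : (fun σ : F ≃ L => indS 𝓕 σ * indB (fun _ => c) b σ) = fun _ => (0 : ℝ) := by
      funext σ; simp [indB, hcb]
    have e2 : (indB (fun _ : F ≃ L => c) b) = fun _ => (0 : ℝ) := by
      funext σ; simp [indB, hcb]
    rw [e1, e2]
    simp [wt]

variable [Field F]

theorem TP.op {𝓕 : Finset (F ≃ L)} {γ : ℝ} {π₀ : Finset (F × L)} {t : ℕ}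
    (hγ : 0 ≤ γ) (hγ1 : γ ≤ 1) (φ : F → F → F) (u v : L) (k : L → (F ≃ L) → Bool)
    (h : ∀ l, TP 𝓕 γ π₀ t (k l)) :
    TP 𝓕 γ π₀ (t + 3) (fun σ => k (σ (φ (σ.symm u) (σ.symm v))) σ) := by
  have h1 : ∀ x y : F, TP 𝓕 γ π₀ (t + 1) (fun σ => k (σ (φ x y)) σ) := fun x y =>
    TP.elem hγ hγ1 (φ x y) k h
  have h2 : ∀ x : F, TP 𝓕 γ π₀ (t + 1 + 1) (fun σ => k (σ (φ x (σ.symm v))) σ) := fun x =>
    TP.label hγ hγ1 v (fun y σ => k (σ (φ x y)) σ) (h1 x)
  exact TP.label hγ hγ1 u (fun x σ => k (σ (φ x (σ.symm v))) σ) h2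

theorem TP.prog {𝓕 : Finset (F ≃ L)} {γ : ℝ} {π₀ : Finset (F × L)}
    (hγ : 0 ≤ γ) (hγ1 : γ ≤ 1)
    (h : ∀ π', π₀ ⊆ π' → γ ^ (π'.card - π₀.card) * wt (indS 𝓕) π' * wt (fun _ => 1) π₀ ≤
        wt (indS 𝓕) π₀ * wt (fun _ => 1) π') {T m : ℕ} {p : Prog F L} (hp : p.Cost T m) :
    TP 𝓕 γ π₀ (3 * T) (fun σ => p.run σ) := by
  induction hp with
  | answer T m b =>
    exact (TP.const h b).mono hγ hγ1 (Nat.zero_le _)
  | lin T m c₀ c₁ c₂ u v k _ ih =>
    exact TP.op hγ hγ1 (fun x y => c₀ + c₁ * x + c₂ * y) u v (fun l σ => (k l).run σ) ih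
  | mul T m u v k _ ih =>
    exact TP.op hγ hγ1 (fun x y => x * y) u v (fun l σ => (k l).run σ) ih

theorem TP.query {𝓕 : Finset (F ≃ L)} {γ : ℝ} {π₀ : Finset (F × L)}
    (hγ : 0 ≤ γ) (hγ1 : γ ≤ 1)
    (h : ∀ π', π₀ ⊆ π' → γ ^ (π'.card - π₀.card) * wt (indS 𝓕) π' * wt (fun _ => 1) π₀ ≤
        wt (indS 𝓕) π₀ * wt (fun _ => 1) π') {T m : ℕ} {Q : L → Prog F L}
    (hp : ∀ l, (Q l).Cost T m) (x : F) (b : Bool) :
    γ ^ (3 * T + 1) * wt (fun σ => indS 𝓕 σ * indB (fun σ => (Q (σ x)).run σ) b σ) π₀ *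
      wt (fun _ => 1) π₀ ≤
      wt (indS 𝓕) π₀ * wt (indB (fun σ => (Q (σ x)).run σ) b) π₀ := by
  have := TP.elem hγ hγ1 x (fun l σ => (Q l).run σ) (fun l => TP.prog hγ hγ1 h (hp l)) b π₀
    (Subset.refl _)
  simpa using this

end Pool.Agent.H93.Gen
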