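import Mathlib
import Pool.Agent.H93.Gen.Transfer

/-!
Running a program on the indeterminate `X`: for a random labelling the answer of a short program
hardly depends on the number asked about.
-/

namespace Pool.Agent.H93.Gen

open Finset Polynomial

open scoped Classical in
/-- the concrete pairs of a formal state at the number `x` -/
noncomputable def ev {F L : Type} [Field F] (Γ : Finset (F[X] × L)) (x : F) : Finset (F × L) :=
  Γ.image fun p => (p.1.eval x, p.2)

variable {F L : Type} [Field F] [Fintype F] [DecidableEq F] [Fintype L] [DecidableEq L]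

omit [Fintype F] [DecidableEq F] [Fintype L] [DecidableEq L] in
theorem mem_ev {Γ : Finset (F[X] × L)} {x : F} {p : F × L} :
    p ∈ ev Γ x ↔ ∃ q ∈ Γ, q.1.eval x = p.1 ∧ q.2 = p.2 := by
  classical
  unfold ev
  rw [mem_image]
  constructor
  · rintro ⟨q, hq, rfl⟩
    exact ⟨q, hq, rfl, rfl⟩
  · rintro ⟨q, hq, h1, h2⟩
    exact ⟨q, hq, Prod.ext h1 h2⟩

/-- at `x` the pairs of the formal state `Γ` form a partial bijection of full size -/
def Good (Γ : Finset (F[X] × L)) (x : F) : Prop :=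
  ∀ p ∈ Γ, ∀ q ∈ Γ, p ≠ q → p.1.eval x ≠ q.1.eval x ∧ p.2 ≠ q.2

omit [Fintype F] [DecidableEq F] [Fintype L] [DecidableEq L] in
theorem Good.isPB {Γ : Finset (F[X] × L)} {x : F} (h : Good Γ x) : IsPB (ev Γ x) := by
  intro p hp q hq hpq
  rw [mem_ev] at hp hq
  obtain ⟨p', hp', h1, h2⟩ := hp
  obtain ⟨q', hq', h3, h4⟩ := hq
  have hne : p' ≠ q' := by
    rintro rfl
    exact hpq (Prod.ext (h1.symm.trans h3) (h2.symm.trans h4))
  have := h p' hp' q' hq' hne
  rw [h1, h2, h3, h4] at this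
  exact this

omit [Fintype F] [DecidableEq F] [Fintype L] [DecidableEq L] in
theorem Good.card {Γ : Finset (F[X] × L)} {x : F} (h : Good Γ x) : (ev Γ x).card = Γ.card := by
  classical
  unfold ev
  refine card_image_of_injOn ?_
  intro p hp q hq he
  by_contra hne
  have := (h p hp q hq hne).2
  simp only [Prod.mk.injEq] at he
  exact this he.2

omit [Fintype F] in
theorem ev_insert (Γ : Finset (F[X] × L)) (x : F) (r : F[X]) (l : L) [DecidableEq (F[X] × L)] :
    ev (insert (r, l) Γ) x = insert (r.eval x, l) (ev Γ x) := by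
  ext p
  rw [mem_ev, mem_insert, mem_ev]
  constructor
  · rintro ⟨q, hq, h1, h2⟩
    rw [mem_insert] at hq
    rcases hq with rfl | hq
    · left
      exact Prod.ext h1.symm h2.symm
    · right
      exact ⟨q, hq, h1, h2⟩
  · rintro (rfl | ⟨q, hq, h1, h2⟩)
    · exact ⟨(r, l), mem_insert_self _ _, rfl, rfl⟩
    · exact ⟨q, mem_insert_of_mem hq, h1, h2⟩

/-- value of `h` at the state `Γ` and the number `x` -/
noncomputable def val (h : F → Bool → (F ≃ L) → ℝ) (Γ : Finset (F[X] × L)) (x : F) (b : Bool) : ℝ :=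
  wt (h x b) (ev Γ x) / ((Fintype.card L - Γ.card).factorial : ℝ)

theorem val_nonneg {h : F → Bool → (F ≃ L) → ℝ} (hh : ∀ x b σ, 0 ≤ h x b σ)
    (Γ : Finset (F[X] × L)) (x : F) (b : Bool) : 0 ≤ val h Γ x b :=
  div_nonneg (wt_nonneg (hh x b) _) (Nat.cast_nonneg _)

/-- the values at the state `Γ` are nearly independent of the number -/
def Claim (h : F → Bool → (F ≃ L) → ℝ) (Γ : Finset (F[X] × L)) (α β : ℝ) : Prop :=
  ∃ q : Bool → ℝ, (∀ b, 0 ≤ q b) ∧ q true + q false = 1 ∧
    ∀ b, ∀ X₀ : Finset F, (∀ x ∈ X₀, Good Γ x) →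
      X₀.card * q b - (α + β * X₀.card) ≤ ∑ x ∈ X₀, val h Γ x b

theorem Claim.mono {h : F → Bool → (F ≃ L) → ℝ} {Γ : Finset (F[X] × L)} {α β α' β' : ℝ}
    (H : Claim h Γ α β) (h1 : α ≤ α') (h2 : β ≤ β') : Claim h Γ α' β' := by
  obtain ⟨q, hq0, hq1, hq⟩ := H
  refine ⟨q, hq0, hq1, fun b X₀ hX => ?_⟩
  refine le_trans ?_ (hq b X₀ hX)
  have : β * X₀.card ≤ β' * X₀.card := mul_le_mul_of_nonneg_right h2 (Nat.cast_nonneg _)
  linarith

theorem Claim.congr {h h' : F → Bool → (F ≃ L) → ℝ} {Γ : Finset (F[X] × L)} {α β : ℝ}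
    (H : Claim h Γ α β) (e : ∀ x b, ∀ σ ∈ ext (ev Γ x), h x b σ = h' x b σ) :
    Claim h' Γ α β := by
  obtain ⟨q, hq0, hq1, hq⟩ := H
  refine ⟨q, hq0, hq1, fun b X₀ hX => ?_⟩
  refine (hq b X₀ hX).trans (le_of_eq ?_)
  refine sum_congr rfl fun x _ => ?_
  unfold val
  rw [wt_congr (e x b)]

/-- averaging over the possible continuations -/
theorem Claim.avg {ι : Type} [Fintype ι] (hι : 0 < Fintype.card ι)
    {h : F → Bool → (F ≃ L) → ℝ} {Γ : Finset (F[X] × L)}
    {α β α' β' : ℝ} (hα : 0 ≤ α) (hβ : 0 ≤ β)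
    (Γi : ι → Finset (F[X] × L)) (hi : ι → F → Bool → (F ≃ L) → ℝ)
    (H : ∀ i, Claim (hi i) (Γi i) α β)
    (h1 : ∀ x, Good Γ x → ∀ b, ∀ s : Finset ι, (∀ i ∈ s, Good (Γi i) x) →
      (∑ i ∈ s, val (hi i) (Γi i) x b) / Fintype.card ι ≤ val h Γ x b)
    (h2 : ∀ X₀ : Finset F, (∀ x ∈ X₀, Good Γ x) → ∀ B : F → Finset ι,
      (∀ x, ∀ i ∈ B x, ¬ Good (Γi i) x) →
      ∑ x ∈ X₀, ((B x).card : ℝ) ≤ Fintype.card ι * (α' + β' * X₀.card)) :
    Claim h Γ (α + α') (β + β') := by
  classical
  choose q hq0 hq1 hq using H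
  set N : ℝ := (Fintype.card ι : ℝ) with hN
  have hNpos : 0 < N := by rw [hN]; exact_mod_cast hι
  have hqle : ∀ i b, q i b ≤ 1 := by
    intro i b
    have := hq1 i
    have h3 := hq0 i true
    have h4 := hq0 i false
    cases b <;> linarith
  refine ⟨fun b => (∑ i, q i b) / N, fun b => ?_, ?_, ?_⟩
  · exact div_nonneg (sum_nonneg fun i _ => hq0 i b) hNpos.le
  · rw [← add_div, ← sum_add_distrib]
    simp only [hq1, sum_const, card_univ, nsmul_eq_mul, mul_one]
    rw [← hN]
    exact div_self hNpos.ne'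
  · intro b X₀ hX
    set XG : ι → Finset F := fun i => X₀.filter fun x => Good (Γi i) x with hXG
    set GG : F → Finset ι := fun x => univ.filter fun i => Good (Γi i) x with hGG
    set BB : F → Finset ι := fun x => univ.filter fun i => ¬ Good (Γi i) x with hBB
    -- lower bound of the right side
    have s1 : (∑ x ∈ X₀, ∑ i ∈ GG x, val (hi i) (Γi i) x b) / N ≤ ∑ x ∈ X₀, val h Γ x b := by
      rw [sum_div]
      refine sum_le_sum fun x hx => ?_
      refine h1 x (hX x hx) b (GG x) ?_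
      intro i hi'
      rw [hGG, mem_filter] at hi'
      exact hi'.2
    have s2 : ∑ x ∈ X₀, ∑ i ∈ GG x, val (hi i) (Γi i) x b =
        ∑ i, ∑ x ∈ XG i, val (hi i) (Γi i) x b := by
      simp only [hGG, hXG, sum_filter]
      rw [sum_comm]
    have s3 : ∑ i, (((XG i).card : ℝ) * q i b - (α + β * (XG i).card)) ≤
        ∑ i, ∑ x ∈ XG i, val (hi i) (Γi i) x b := by
      refine sum_le_sum fun i _ => hq i b (XG i) ?_
      intro x hx
      rw [hXG, mem_filter] at hx
      exact hx.2
    -- the bad pairs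
    have s4 : ∑ x ∈ X₀, ((BB x).card : ℝ) = ∑ i, ((X₀.card : ℝ) - (XG i).card) := by
      have e1 : ∀ x, ((BB x).card : ℝ) = ∑ i, if ¬ Good (Γi i) x then (1 : ℝ) else 0 := by
        intro x
        simp only [hBB]
        rw [card_filter]
        push_cast
        rfl
      have e2 : ∀ i, ((X₀.card : ℝ) - (XG i).card) =
          ∑ x ∈ X₀, if ¬ Good (Γi i) x then (1 : ℝ) else 0 := by
        intro i
        have : (X₀.card : ℝ) = (XG i).card + (X₀.filter fun x => ¬ Good (Γi i) x).card := by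
          have := card_filter_add_card_filter_not (s := X₀) (fun x => Good (Γi i) x)
          rw [← this]
          push_cast
          rfl
        rw [this, card_filter (fun x => ¬ Good (Γi i) x)]
        push_cast
        ring
      simp only [e1, e2]
      rw [sum_comm]
    have s5 := h2 X₀ hX BB (by
      intro x i hi'
      rw [hBB, mem_filter] at hi'
      exact hi'.2)
    rw [s4] at s5
    have s6 : ∀ i, (X₀.card : ℝ) * q i b - ((X₀.card : ℝ) - (XG i).card) - (α + β * X₀.card) ≤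
        ((XG i).card : ℝ) * q i b - (α + β * (XG i).card) := by
      intro i
      have hle : ((XG i).card : ℝ) ≤ X₀.card := by
        exact_mod_cast card_le_card (filter_subset _ _)
      have := hqle i b
      have := hq0 i b
      nlinarith
    have s7 := (sum_le_sum fun i (_ : i ∈ (univ : Finset ι)) => s6 i).trans s3
    rw [sum_sub_distrib, sum_sub_distrib, sum_const, card_univ, nsmul_eq_mul, ← hN,
      ← mul_sum] at s7
    rw [s2] at s1
    refine le_trans ?_ s1
    rw [le_div_iff₀ hNpos]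
    have e3 : (X₀.card : ℝ) * ((∑ i, q i b) / N) * N = X₀.card * ∑ i, q i b := by
      field_simp
    have e4 : ((X₀.card : ℝ) * ((∑ i, q i b) / N) - (α + α' + (β + β') * X₀.card)) * N =
        X₀.card * (∑ i, q i b) - N * (α' + β' * X₀.card) - N * (α + β * X₀.card) := by
      linear_combination e3
    rw [e4]
    linarith

end Pool.Agent.H93.Gen
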