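import Mathlib
import Pool.Agent.H93.Gen.Formal

/-!
The two elementary steps (revealing the number with a given label, revealing the label of a given
number), whole operations and whole programs.
-/

namespace Pool.Agent.H93.Gen

open Finset Polynomial

variable {F L : Type} [Field F] [Fintype F] [DecidableEq F] [Fintype L] [DecidableEq L]

theorem Good.subset {Γ Γ' : Finset (F[X] × L)} {x : F} (h : Good Γ' x) (hs : Γ ⊆ Γ') :
    Good Γ x := fun p hp q hq => h p (hs hp) q (hs hq)

theorem good_insert {Γ : Finset (F[X] × L)} {x : F} {r : F[X]} {l : L}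
    [DecidableEq (F[X] × L)] (h : Good Γ x)
    (hr : ∀ p ∈ Γ, p.1.eval x ≠ r.eval x) (hl : ∀ p ∈ Γ, p.2 ≠ l) : Good (insert (r, l) Γ) x := by
  intro p hp q hq hpq
  rw [mem_insert] at hp hq
  rcases hp with rfl | hp <;> rcases hq with rfl | hq
  · exact absurd rfl hpq
  · exact ⟨(hr q hq).symm, (hl q hq).symm⟩
  · exact ⟨hr p hp, hl p hp⟩
  · exact h p hp q hq hpq

/-- comparison of one continuation with the current state -/
theorem val_div_le {h h' : F → Bool → (F ≃ L) → ℝ} {Γ : Finset (F[X] × L)} {x : F} {b : Bool}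
    {r : F[X]} {l : L} [DecidableEq (F[X] × L)]
    (hh' : ∀ x b σ, 0 ≤ h' x b σ) (hn : (r, l) ∉ Γ) (hg : Good (insert (r, l) Γ) x)
    (he : ∀ σ ∈ ext (insert (r.eval x, l) (ev Γ x)), h x b σ = h' x b σ) :
    val h' (insert (r, l) Γ) x b / Fintype.card L ≤
      wt (h x b) (insert (r.eval x, l) (ev Γ x)) /
        ((Fintype.card L - Γ.card).factorial : ℝ) := by
  have hcard : (insert (r, l) Γ).card = Γ.card + 1 := card_insert_of_notMem hn
  have hle : Γ.card + 1 ≤ Fintype.card L := by
    rw [← hcard, ← hg.card]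
    exact hg.isPB.card_le
  have hw : wt (h x b) (insert (r.eval x, l) (ev Γ x)) =
      wt (h' x b) (insert (r.eval x, l) (ev Γ x)) := wt_congr he
  rw [hw]
  unfold val
  rw [ev_insert, hcard]
  obtain ⟨d, hd⟩ : ∃ d, Fintype.card L - Γ.card = d + 1 := ⟨Fintype.card L - Γ.card - 1, by omega⟩
  have hd' : Fintype.card L - (Γ.card + 1) = d := by omega
  rw [hd, hd', Nat.factorial_succ, div_div]
  have hw0 : 0 ≤ wt (h' x b) (insert (r.eval x, l) (ev Γ x)) := wt_nonneg (hh' x b) _
  have hfac : (0 : ℝ) < (d.factorial : ℝ) := by exact_mod_cast Nat.factorial_pos d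
  refine div_le_div_of_nonneg_left hw0 ?_ ?_
  · push_cast
    positivity
  · push_cast
    rw [mul_comm ((d : ℝ) + 1)]
    refine mul_le_mul_of_nonneg_left ?_ hfac.le
    have : d + 1 ≤ Fintype.card L := by omega
    exact_mod_cast this

open scoped Classical in
/-- reveal the number with the label `u` -/
theorem Claim.label (hFL : Fintype.card F = Fintype.card L)
    {h : F → Bool → (F ≃ L) → ℝ} {Γ : Finset (F[X] × L)} {α β : ℝ} (hα : 0 ≤ α) (hβ : 0 ≤ β)
    (hh : ∀ x b σ, 0 ≤ h x b σ) (u : L) (hu : ∀ p ∈ Γ, p.2 ≠ u)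
    (H : ∀ g : F, Claim h (insert (C g, u) Γ) α β) :
    Claim h Γ α (β + Γ.card / Fintype.card L) := by
  have hpos : 0 < Fintype.card F := Fintype.card_pos
  have key := Claim.avg (ι := F) hpos (h := h) (Γ := Γ) (α' := 0)
    (β' := (Γ.card : ℝ) / Fintype.card L) hα hβ (fun g => insert (C g, u) Γ) (fun _ => h) H ?_ ?_
  · simpa using key
  · intro x hx b s hs
    rw [sum_div]
    have e1 : val h Γ x b = (∑ g : F, wt (h x b) (insert (g, u) (ev Γ x))) /
        ((Fintype.card L - Γ.card).factorial : ℝ) := by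
      unfold val
      rw [wt_label _ _ u]
    rw [e1, sum_div]
    refine (sum_le_sum fun g hg => ?_).trans (sum_le_sum_of_subset_of_nonneg (subset_univ s)
      fun g _ _ => div_nonneg (wt_nonneg (hh x b) _) (Nat.cast_nonneg _))
    have hn : (C g, u) ∉ Γ := fun hmem => hu _ hmem rfl
    have := val_div_le (h := h) (b := b) hh hn (hs g hg) (fun σ _ => rfl)
    rw [eval_C] at this
    rw [hFL]
    exact this
  · intro X₀ hX B hB
    have hcard : (Fintype.card F : ℝ) * (0 + (Γ.card : ℝ) / Fintype.card L * X₀.card) =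
        X₀.card * Γ.card := by
      rw [hFL]
      have : (Fintype.card L : ℝ) ≠ 0 := by
        rw [← hFL]; exact_mod_cast hpos.ne'
      field_simp
      ring
    rw [hcard, ← nsmul_eq_mul, ← sum_const]
    refine sum_le_sum fun x hx => ?_
    have hsub : B x ⊆ Γ.image fun p => p.1.eval x := by
      intro g hg
      by_contra hcon
      refine hB x g hg ?_
      refine good_insert (hX x hx) ?_ hu
      intro p hp he
      rw [eval_C] at he
      exact hcon (mem_image.2 ⟨p, hp, he⟩)
    exact_mod_cast (card_le_card hsub).trans card_image_le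

open scoped Classical in
/-- reveal the label of the number `r` -/
theorem Claim.elem (hFL : Fintype.card F = Fintype.card L)
    {h : F → Bool → (F ≃ L) → ℝ} {Γ : Finset (F[X] × L)} {α β : ℝ} (hα : 0 ≤ α) (hβ : 0 ≤ β)
    (hh : ∀ x b σ, 0 ≤ h x b σ) (r : F[X]) (D : ℕ) (hr : ∀ p ∈ Γ, p.1 ≠ r)
    (hD : r.natDegree ≤ D) (hD' : ∀ p ∈ Γ, p.1.natDegree ≤ D)
    (h' : L → F → Bool → (F ≃ L) → ℝ) (hh' : ∀ l x b σ, 0 ≤ h' l x b σ)
    (he : ∀ x b l, ∀ σ ∈ ext (insert (r.eval x, l) (ev Γ x)), h x b σ = h' l x b σ)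
    (H : ∀ l : L, Claim (h' l) (insert (r, l) Γ) α β) :
    Claim h Γ (α + D * Γ.card) (β + Γ.card / Fintype.card L) := by
  have hpos : 0 < Fintype.card L := by rw [← hFL]; exact Fintype.card_pos
  have hposR : (0 : ℝ) < Fintype.card L := by exact_mod_cast hpos
  refine Claim.avg (ι := L) hpos (h := h) (Γ := Γ) hα hβ (fun l => insert (r, l) Γ) h' H ?_ ?_
  · intro x hx b s hs
    rw [sum_div]
    have e1 : val h Γ x b = (∑ l : L, wt (h x b) (insert (r.eval x, l) (ev Γ x))) /
        ((Fintype.card L - Γ.card).factorial : ℝ) := by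
      unfold val
      rw [wt_elem _ _ (r.eval x)]
    rw [e1, sum_div]
    refine (sum_le_sum fun l hl => ?_).trans (sum_le_sum_of_subset_of_nonneg (subset_univ s)
      fun g _ _ => div_nonneg (wt_nonneg (hh x b) _) (Nat.cast_nonneg _))
    have hn : (r, l) ∉ Γ := fun hmem => hr _ hmem rfl
    exact val_div_le (h := h) (hh' l) hn (hs l hl) (he x b l)
  · intro X₀ hX B hB
    -- the numbers at which `r` collides
    set Y : Finset F := X₀.filter fun x => ∃ p ∈ Γ, p.1.eval x = r.eval x with hY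
    have hYcard : (Y.card : ℝ) ≤ D * Γ.card := by
      have hsub : Y ⊆ Γ.biUnion fun p => (p.1 - r).roots.toFinset := by
        intro x hx
        rw [hY, mem_filter] at hx
        obtain ⟨p, hp, he⟩ := hx.2
        rw [mem_biUnion]
        refine ⟨p, hp, ?_⟩
        rw [Multiset.mem_toFinset, mem_roots (sub_ne_zero.2 (hr p hp)), IsRoot, eval_sub, he,
          sub_self]
      have h1 : Y.card ≤ ∑ p ∈ Γ, D := by
        refine (card_le_card hsub).trans (card_biUnion_le.trans (sum_le_sum fun p hp => ?_))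
        refine (Multiset.toFinset_card_le _).trans ((card_roots' _).trans ?_)
        exact (natDegree_sub_le _ _).trans (max_le (hD' p hp) hD)
      rw [sum_const, smul_eq_mul] at h1
      have : (Y.card : ℝ) ≤ ((Γ.card * D : ℕ) : ℝ) := by exact_mod_cast h1
      push_cast at this
      linarith
    have hBle : ∀ x ∈ X₀, ((B x).card : ℝ) ≤
        (Γ.card : ℝ) + (if x ∈ Y then (Fintype.card L : ℝ) else 0) := by
      intro x hx
      split_ifs with hxY
      · have : ((B x).card : ℝ) ≤ Fintype.card L := by exact_mod_cast card_le_univ _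
        have h0 : (0 : ℝ) ≤ Γ.card := Nat.cast_nonneg _
        linarith
      · have hsub : B x ⊆ Γ.image fun p => p.2 := by
          intro l hl
          by_contra hcon
          refine hB x l hl ?_
          refine good_insert (hX x hx) ?_ ?_
          · intro p hp he
            exact hxY (by rw [hY, mem_filter]; exact ⟨hx, p, hp, he⟩)
          · intro p hp he
            exact hcon (mem_image.2 ⟨p, hp, he⟩)
        have : ((B x).card : ℝ) ≤ Γ.card := by
          exact_mod_cast (card_le_card hsub).trans card_image_le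
        linarith
    refine (sum_le_sum hBle).trans ?_
    rw [sum_add_distrib, sum_const, nsmul_eq_mul, ← sum_filter]
    have e2 : X₀.filter (fun x => x ∈ Y) = Y := by
      ext x
      simp only [hY, mem_filter]
      tauto
    rw [e2, sum_const, nsmul_eq_mul]
    have e3 : (Fintype.card L : ℝ) * (D * Γ.card + (Γ.card : ℝ) / Fintype.card L * X₀.card) =
        Fintype.card L * (D * Γ.card) + X₀.card * Γ.card := by
      field_simp
    rw [e3]
    nlinarith

/-- the function of a program-like object with answers `r` -/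
def hOf (r : (F ≃ L) → Bool) : F → Bool → (F ≃ L) → ℝ := fun _ b σ => indB r b σ

theorem Claim.const (hFL : Fintype.card F = Fintype.card L) (Γ : Finset (F[X] × L)) (c : Bool) :
    Claim (hOf (F := F) (L := L) fun _ => c) Γ 0 0 := by
  refine ⟨fun b => if c = b then 1 else 0, fun b => by dsimp only; split_ifs <;> norm_num, ?_, ?_⟩
  · cases c <;> simp
  · intro b X₀ hX
    have : ∀ x ∈ X₀, val (hOf (F := F) (L := L) fun _ => c) Γ x b = if c = b then 1 else 0 := by
      intro x hx
      have hg := hX x hx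
      unfold val hOf indB
      split_ifs with hcb
      · have := card_ext hg.isPB hFL
        simp only [wt, sum_const, nsmul_eq_mul, mul_one]
        rw [this, hg.card]
        exact div_self (by exact_mod_cast (Nat.factorial_pos _).ne')
      · simp [wt]
    rw [sum_congr rfl this]
    simp

open scoped Classical in
/-- an operation on two labels whose numbers are known -/
theorem Claim.op_known (hFL : Fintype.card F = Fintype.card L)
    {Γ : Finset (F[X] × L)} {α β : ℝ} (hα : 0 ≤ α) (hβ : 0 ≤ β)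
    (φ : F → F → F) (u v : L) (K : L → (F ≃ L) → Bool) {fu fv r : F[X]}
    (hu : (fu, u) ∈ Γ) (hv : (fv, v) ∈ Γ) (hr : ∀ x, r.eval x = φ (fu.eval x) (fv.eval x))
    (D : ℕ) (hD : r.natDegree ≤ D) (hD' : ∀ p ∈ Γ, p.1.natDegree ≤ D)
    (H : ∀ l : L, Claim (hOf (K l)) (insert (r, l) Γ) α β) :
    Claim (hOf fun σ => K (σ (φ (σ.symm u) (σ.symm v))) σ) Γ
      (α + D * Γ.card) (β + Γ.card / Fintype.card L) := by
  have hsymm : ∀ x : F, ∀ σ ∈ ext (ev Γ x), φ (σ.symm u) (σ.symm v) = r.eval x := by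
    intro x σ hσ
    rw [mem_ext] at hσ
    have h1 := hσ (fu.eval x, u) (mem_ev.2 ⟨_, hu, rfl, rfl⟩)
    have h2 := hσ (fv.eval x, v) (mem_ev.2 ⟨_, hv, rfl, rfl⟩)
    simp only at h1 h2
    rw [hr, (Equiv.symm_apply_eq σ).2 h1.symm, (Equiv.symm_apply_eq σ).2 h2.symm]
  by_cases hrd : ∃ p ∈ Γ, p.1 = r
  · obtain ⟨p, hp, rfl⟩ := hrd
    have H' := H p.2
    have hins : insert (p.1, p.2) Γ = Γ := insert_eq_of_mem hp
    rw [hins] at H'
    have h3 : (0 : ℝ) ≤ D * Γ.card := by positivity
    have h4 : (0 : ℝ) ≤ (Γ.card : ℝ) / Fintype.card L := by positivity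
    refine (H'.congr ?_).mono (by linarith) (by linarith)
    intro x b σ hσ
    have h5 := hsymm x σ hσ
    rw [mem_ext] at hσ
    have h6 := hσ (p.1.eval x, p.2) (mem_ev.2 ⟨_, hp, rfl, rfl⟩)
    simp only at h6
    simp only [hOf, indB, h5, h6]
  · push Not at hrd
    refine Claim.elem hFL hα hβ (fun x b σ => indB_nonneg _ _ _) r D hrd hD hD'
      (fun l => hOf (K l)) (fun l x b σ => indB_nonneg _ _ _) ?_ H
    intro x b l σ hσ
    rw [mem_ext_insert] at hσ
    have h5 := hsymm x σ hσ.2
    have h6 := hσ.1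
    simp only at h6
    simp only [hOf, indB, h5, h6]

open scoped Classical in
/-- one operation -/
theorem Claim.op (hFL : Fintype.card F = Fintype.card L)
    {Γ : Finset (F[X] × L)} {α β : ℝ} (hα : 0 ≤ α) (hβ : 0 ≤ β)
    (φ : F → F → F) (Φ : F[X] → F[X] → F[X])
    (hΦ : ∀ f g : F[X], ∀ x, (Φ f g).eval x = φ (f.eval x) (g.eval x)) (d D : ℕ)
    (hdD : d ≤ D) (hΦD : ∀ f g : F[X], f.natDegree ≤ d → g.natDegree ≤ d → (Φ f g).natDegree ≤ D)
    (hΓ : ∀ p ∈ Γ, p.1.natDegree ≤ d)
    (u v : L) (K : L → (F ≃ L) → Bool)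
    (H : ∀ l : L, ∀ Γ' : Finset (F[X] × L), Γ'.card ≤ Γ.card + 3 →
      (∀ p ∈ Γ', p.1.natDegree ≤ D) → Claim (hOf (K l)) Γ' α β) :
    Claim (hOf fun σ => K (σ (φ (σ.symm u) (σ.symm v))) σ) Γ
      (α + D * (Γ.card + 2)) (β + (3 * Γ.card + 3) / Fintype.card L) := by
  have hpos : (0 : ℝ) < Fintype.card L := by rw [← hFL]; exact_mod_cast Fintype.card_pos
  set op : (F ≃ L) → Bool := fun σ => K (σ (φ (σ.symm u) (σ.symm v))) σ with hop
  -- both known
  have c1 : ∀ Γ₁ : Finset (F[X] × L), Γ₁.card ≤ Γ.card + 2 → (∀ p ∈ Γ₁, p.1.natDegree ≤ d) →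
      (∃ p ∈ Γ₁, p.2 = u) → (∃ p ∈ Γ₁, p.2 = v) →
      Claim (hOf op) Γ₁ (α + D * (Γ.card + 2)) (β + (Γ.card + 2) / Fintype.card L) := by
    rintro Γ₁ hc hd ⟨⟨fu, u'⟩, hfu, rfl⟩ ⟨⟨fv, v'⟩, hfv, rfl⟩
    have hr : (Φ fu fv).natDegree ≤ D := hΦD _ _ (hd _ hfu) (hd _ hfv)
    have h1 := Claim.op_known hFL hα hβ φ u' v' K hfu hfv (hΦ fu fv) D hr
      (fun p hp => (hd p hp).trans hdD) (fun l => H l _ ?_ ?_)
    · have h2 : (Γ₁.card : ℝ) ≤ Γ.card + 2 := by exact_mod_cast hc
      refine h1.mono ?_ ?_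
      · have : (D : ℝ) * Γ₁.card ≤ D * (Γ.card + 2) :=
          mul_le_mul_of_nonneg_left h2 (Nat.cast_nonneg _)
        linarith
      · have : (Γ₁.card : ℝ) / Fintype.card L ≤ (Γ.card + 2) / Fintype.card L :=
          div_le_div_of_nonneg_right h2 hpos.le
        linarith
    · exact (card_insert_le _ _).trans (by omega)
    · intro p hp
      rw [mem_insert] at hp
      rcases hp with rfl | hp
      · exact hr
      · exact (hd p hp).trans hdD
  have hα1 : 0 ≤ α + D * (Γ.card + 2 : ℝ) := by positivity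
  -- u known
  have c2 : ∀ Γ₁ : Finset (F[X] × L), Γ₁.card ≤ Γ.card + 1 → (∀ p ∈ Γ₁, p.1.natDegree ≤ d) →
      (∃ p ∈ Γ₁, p.2 = u) →
      Claim (hOf op) Γ₁ (α + D * (Γ.card + 2)) (β + (2 * Γ.card + 3) / Fintype.card L) := by
    intro Γ₁ hc hd hku
    have h2 : (Γ₁.card : ℝ) ≤ Γ.card + 1 := by exact_mod_cast hc
    by_cases hkv : ∃ p ∈ Γ₁, p.2 = v
    · refine (c1 Γ₁ (by omega) hd hku hkv).mono le_rfl ?_
      have : ((Γ.card : ℝ) + 2) / Fintype.card L ≤ (2 * Γ.card + 3) / Fintype.card L :=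
        div_le_div_of_nonneg_right (by have : (0 : ℝ) ≤ Γ.card := Nat.cast_nonneg _; linarith)
          hpos.le
      linarith
    · push Not at hkv
      have h3 := Claim.label hFL (Γ := Γ₁) hα1
        (by positivity : (0 : ℝ) ≤ β + (Γ.card + 2) / Fintype.card L)
        (h := hOf op) (fun x b σ => indB_nonneg _ _ _) v hkv (fun g => c1 _ ?_ ?_ ?_ ?_)
      · refine h3.mono le_rfl ?_
        have : (Γ₁.card : ℝ) / Fintype.card L ≤ (Γ.card + 1) / Fintype.card L :=
          div_le_div_of_nonneg_right h2 hpos.le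
        have h5 : ((Γ.card : ℝ) + 2) / Fintype.card L + (Γ.card + 1) / Fintype.card L =
            (2 * Γ.card + 3) / Fintype.card L := by
          rw [← add_div]; congr 1; ring
        linarith
      · exact (card_insert_le _ _).trans (by omega)
      · intro p hp
        rw [mem_insert] at hp
        rcases hp with rfl | hp
        · simp
        · exact hd p hp
      · obtain ⟨p, hp, he⟩ := hku
        exact ⟨p, mem_insert_of_mem hp, he⟩
      · exact ⟨_, mem_insert_self _ _, rfl⟩
  by_cases hku : ∃ p ∈ Γ, p.2 = u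
  · refine (c2 Γ (by omega) hΓ hku).mono le_rfl ?_
    have : (2 * (Γ.card : ℝ) + 3) / Fintype.card L ≤ (3 * Γ.card + 3) / Fintype.card L :=
      div_le_div_of_nonneg_right (by have : (0 : ℝ) ≤ Γ.card := Nat.cast_nonneg _; linarith)
        hpos.le
    linarith
  · push Not at hku
    have h3 := Claim.label hFL (Γ := Γ) hα1
      (by positivity : (0 : ℝ) ≤ β + (2 * Γ.card + 3) / Fintype.card L)
      (h := hOf op) (fun x b σ => indB_nonneg _ _ _) u hku (fun g => c2 _ ?_ ?_ ?_)
    · refine h3.mono le_rfl ?_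
      have h5 : (2 * (Γ.card : ℝ) + 3) / Fintype.card L + Γ.card / Fintype.card L =
          (3 * Γ.card + 3) / Fintype.card L := by
        rw [← add_div]; congr 1; ring
      linarith
    · exact card_insert_le _ _
    · intro p hp
      rw [mem_insert] at hp
      rcases hp with rfl | hp
      · simp
      · exact hΓ p hp
    · exact ⟨_, mem_insert_self _ _, rfl⟩

end Pool.Agent.H93.Gen
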