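import Mathlib
import Pool.Agent.H93.Gen.Steps

/-!
The main inequality.
-/

namespace Pool.Agent.H93.Gen

open Finset Polynomial

variable {F L : Type} [Field F] [Fintype F] [DecidableEq F] [Fintype L] [DecidableEq L]

theorem Claim.prog (hFL : Fintype.card F = Fintype.card L) {T m : ℕ} {p : Prog F L}
    (hp : p.Cost T m) : ∀ (d : ℕ) (Γ : Finset (F[X] × L)), (∀ q ∈ Γ, q.1.natDegree ≤ d) →
    Claim (hOf fun σ => p.run σ) Γ ((d * 2 ^ m : ℕ) * (T * (Γ.card + 3 * T)))
      (3 * T * (Γ.card + 3 * T) / Fintype.card L) := by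
  classical
  have hpos : (0 : ℝ) < Fintype.card L := by rw [← hFL]; exact_mod_cast Fintype.card_pos
  induction hp with
  | answer T m b =>
    intro d Γ hΓ
    exact (Claim.const hFL Γ b).mono (by positivity) (by positivity)
  | lin T m c₀ c₁ c₂ u v k _ ih =>
    intro d Γ hΓ
    have hc : (0 : ℝ) ≤ Γ.card := Nat.cast_nonneg _
    have hT : (0 : ℝ) ≤ T := Nat.cast_nonneg _
    have key := Claim.op hFL (Γ := Γ)
      (α := (d * 2 ^ m : ℕ) * (T * (Γ.card + 3 + 3 * T)))
      (β := 3 * T * (Γ.card + 3 + 3 * T) / Fintype.card L) (by positivity) (by positivity)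
      (fun x y => c₀ + c₁ * x + c₂ * y) (fun f g => C c₀ + C c₁ * f + C c₂ * g)
      (fun f g x => by simp) d d le_rfl ?_ hΓ u v
      (fun l σ => (k l).run σ) ?_
    · refine key.mono ?_ ?_
      · push_cast
        have h0 : (0 : ℝ) ≤ d := Nat.cast_nonneg _
        have h1 : (0 : ℝ) ≤ (d : ℝ) * 2 ^ m := by positivity
        have h2 : (d : ℝ) ≤ d * 2 ^ m := le_mul_of_one_le_right h0 (one_le_pow₀ (by norm_num))
        have h3 : (d : ℝ) * (Γ.card + 2) ≤ d * 2 ^ m * (Γ.card + 2) :=
          mul_le_mul_of_nonneg_right h2 (by positivity)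
        nlinarith [mul_nonneg h1 hT, mul_nonneg h1 hc]
      · rw [← add_div]
        refine div_le_div_of_nonneg_right ?_ hpos.le
        push_cast
        nlinarith
    · intro f g hf hg
      refine (natDegree_add_le _ _).trans (max_le ((natDegree_add_le _ _).trans (max_le ?_ ?_)) ?_)
      · simp
      · exact (natDegree_C_mul_le _ _).trans hf
      · exact (natDegree_C_mul_le _ _).trans hg
    · intro l Γ' hc' hd'
      have h2 : (Γ'.card : ℝ) ≤ Γ.card + 3 := by exact_mod_cast hc'
      refine (ih l d Γ' hd').mono ?_ ?_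
      · refine mul_le_mul_of_nonneg_left ?_ (Nat.cast_nonneg _)
        exact mul_le_mul_of_nonneg_left (by linarith) hT
      · refine div_le_div_of_nonneg_right ?_ hpos.le
        exact mul_le_mul_of_nonneg_left (by linarith) (by positivity)
  | mul T m u v k _ ih =>
    intro d Γ hΓ
    have hc : (0 : ℝ) ≤ Γ.card := Nat.cast_nonneg _
    have hT : (0 : ℝ) ≤ T := Nat.cast_nonneg _
    have key := Claim.op hFL (Γ := Γ)
      (α := ((d + d) * 2 ^ m : ℕ) * (T * (Γ.card + 3 + 3 * T)))
      (β := 3 * T * (Γ.card + 3 + 3 * T) / Fintype.card L) (by positivity) (by positivity)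
      (fun x y => x * y) (fun f g => f * g)
      (fun f g x => by simp) d (d + d) (Nat.le_add_left _ _) ?_ hΓ u v
      (fun l σ => (k l).run σ) ?_
    · refine key.mono ?_ ?_
      · push_cast
        have h0 : (0 : ℝ) ≤ d := Nat.cast_nonneg _
        have h1 : (0 : ℝ) ≤ (d : ℝ) * 2 ^ m := by positivity
        have h2 : (d : ℝ) ≤ d * 2 ^ m := le_mul_of_one_le_right h0 (one_le_pow₀ (by norm_num))
        have h3 : (d : ℝ) * (Γ.card + 2) ≤ d * 2 ^ m * (Γ.card + 2) :=
          mul_le_mul_of_nonneg_right h2 (by positivity)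
        rw [pow_succ]
        nlinarith [mul_nonneg h1 hT, mul_nonneg h1 hc]
      · rw [← add_div]
        refine div_le_div_of_nonneg_right ?_ hpos.le
        push_cast
        nlinarith
    · intro f g hf hg
      exact natDegree_mul_le.trans (by omega)
    · intro l Γ' hc' hd'
      have h2 : (Γ'.card : ℝ) ≤ Γ.card + 3 := by exact_mod_cast hc'
      refine (ih l (d + d) Γ' hd').mono ?_ ?_
      · refine mul_le_mul_of_nonneg_left ?_ (Nat.cast_nonneg _)
        exact mul_le_mul_of_nonneg_left (by linarith) hT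
      · refine div_le_div_of_nonneg_right ?_ hpos.le
        exact mul_le_mul_of_nonneg_left (by linarith) (by positivity)

/-- the function of a query algorithm -/
def hQ (Q : L → Prog F L) : F → Bool → (F ≃ L) → ℝ := fun x b σ =>
  indB (fun σ => (Q (σ x)).run σ) b σ

open scoped Classical in
/-- the formal state with constant polynomials -/
noncomputable def lift (π : Finset (F × L)) : Finset (F[X] × L) :=
  π.image fun p => (C p.1, p.2)

theorem ev_lift (π : Finset (F × L)) (x : F) : ev (lift π) x = π := by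
  ext p
  rw [mem_ev]
  unfold lift
  constructor
  · rintro ⟨q, hq, h1, h2⟩
    rw [mem_image] at hq
    obtain ⟨p', hp', rfl⟩ := hq
    simp only [eval_C] at h1 h2
    have : p' = p := Prod.ext h1 h2
    rwa [← this]
  · intro hp
    exact ⟨(C p.1, p.2), mem_image.2 ⟨p, hp, rfl⟩, by simp, rfl⟩

theorem card_lift (π : Finset (F × L)) : (lift π).card = π.card := by
  unfold lift
  refine card_image_of_injective _ ?_
  intro p q h
  simp only [Prod.mk.injEq, C_inj] at h
  exact Prod.ext h.1 h.2

theorem good_lift {π : Finset (F × L)} (h : IsPB π) (x : F) : Good (lift π) x := by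
  intro p hp q hq hpq
  unfold lift at hp hq
  rw [mem_image] at hp hq
  obtain ⟨p', hp', rfl⟩ := hp
  obtain ⟨q', hq', rfl⟩ := hq
  simp only [eval_C]
  refine h p' hp' q' hq' ?_
  rintro rfl
  exact hpq rfl

theorem Claim.query (hFL : Fintype.card F = Fintype.card L) {T m : ℕ} {Q : L → Prog F L}
    (hp : ∀ l, (Q l).Cost T m) (π : Finset (F × L)) :
    Claim (hQ Q) (lift π) ((2 ^ m : ℕ) * (T * (π.card + 1 + 3 * T)) + π.card)
      (3 * T * (π.card + 1 + 3 * T) / Fintype.card L + π.card / Fintype.card L) := by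
  classical
  have hpos : (0 : ℝ) < Fintype.card L := by rw [← hFL]; exact_mod_cast Fintype.card_pos
  have hT : (0 : ℝ) ≤ T := Nat.cast_nonneg _
  have key := Claim.elem hFL (h := hQ Q) (Γ := lift π)
    (α := (2 ^ m : ℕ) * (T * (π.card + 1 + 3 * T)))
    (β := 3 * T * (π.card + 1 + 3 * T) / Fintype.card L) (by positivity) (by positivity)
    (fun x b σ => indB_nonneg _ _ _) X 1 ?_ natDegree_X.le ?_
    (fun l => hOf fun σ => (Q l).run σ) (fun l x b σ => indB_nonneg _ _ _) ?_ ?_
  · refine key.mono ?_ ?_
    · rw [card_lift]; simp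
    · rw [card_lift]
  · intro p hp he
    unfold lift at hp
    rw [mem_image] at hp
    obtain ⟨p', _, rfl⟩ := hp
    have := congrArg natDegree he
    simp at this
  · intro p hp
    unfold lift at hp
    rw [mem_image] at hp
    obtain ⟨p', _, rfl⟩ := hp
    simp
  · intro x b l σ hσ
    rw [mem_ext_insert, eval_X] at hσ
    have : σ x = l := hσ.1
    simp only [hQ, hOf, indB, this]
  · intro l
    have hc : (insert ((X : F[X]), l) (lift π)).card ≤ π.card + 1 := by
      refine (card_insert_le _ _).trans ?_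
      rw [card_lift]
    have h2 : ((insert ((X : F[X]), l) (lift π)).card : ℝ) ≤ π.card + 1 := by exact_mod_cast hc
    refine (Claim.prog hFL (hp l) 1 _ ?_).mono ?_ ?_
    · intro p hp'
      rw [mem_insert] at hp'
      rcases hp' with rfl | hp'
      · exact natDegree_X.le
      · unfold lift at hp'
        rw [mem_image] at hp'
        obtain ⟨p', _, rfl⟩ := hp'
        simp
    · rw [one_mul]
      refine mul_le_mul_of_nonneg_left ?_ (Nat.cast_nonneg _)
      exact mul_le_mul_of_nonneg_left (by linarith) hT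
    · refine div_le_div_of_nonneg_right ?_ hpos.le
      exact mul_le_mul_of_nonneg_left (by linarith) (by positivity)

end Pool.Agent.H93.Gen
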