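import Mathlib
import Pool.Agent.H93.Gen.Main

/-!
The main inequality.
-/

namespace Pool.Agent.H93.Gen

open Finset Polynomial

theorem gamma_pow_le (K : ℕ) (hK : 1 ≤ K) : (1 - 1 / (K : ℝ)) ^ K ≤ 1 / 2 := by
  have hK0 : (0 : ℝ) < K := by exact_mod_cast hK
  have hK1 : (1 : ℝ) ≤ K := by exact_mod_cast hK
  have h1 : (1 - 1 / (K : ℝ)) * (1 + 1 / K) ≤ 1 := by
    have : (1 - 1 / (K : ℝ)) * (1 + 1 / K) = 1 - (1 / K) ^ 2 := by ring
    rw [this]
    have := sq_nonneg (1 / (K : ℝ))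
    linarith
  have h0 : 0 ≤ 1 - 1 / (K : ℝ) := by
    rw [sub_nonneg, div_le_one hK0]
    exact hK1
  have h2 : (2 : ℝ) ≤ (1 + 1 / K) ^ K := by
    have := one_add_mul_le_pow (a := 1 / (K : ℝ)) (by
      have : (0 : ℝ) ≤ 1 / K := by positivity
      linarith) K
    have e : (1 : ℝ) + K * (1 / K) = 2 := by field_simp; norm_num
    rw [e] at this
    exact this
  have h3 : (1 - 1 / (K : ℝ)) ^ K * (1 + 1 / K) ^ K ≤ 1 := by
    rw [← mul_pow]
    exact pow_le_one₀ (mul_nonneg h0 (by positivity)) h1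
  have h4 : 0 ≤ (1 - 1 / (K : ℝ)) ^ K := pow_nonneg h0 _
  nlinarith

theorem gamma_pow_ge (t : ℕ) :
    (9 : ℝ) / 10 ≤ (1 - 1 / ((10 * (t + 1) : ℕ) : ℝ)) ^ (t + 1) := by
  have h := one_add_mul_le_pow (a := -(1 / ((10 * (t + 1) : ℕ) : ℝ))) (by
    have h0 : (1 : ℝ) ≤ ((10 * (t + 1) : ℕ) : ℝ) := by exact_mod_cast (by omega)
    have h1 : 1 / ((10 * (t + 1) : ℕ) : ℝ) ≤ 1 := by
      rw [div_le_one (by linarith)]; exact h0
    linarith) (t + 1)
  refine le_trans (le_of_eq ?_) h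
  have : ((t : ℝ) + 1) ≠ 0 := by positivity
  push_cast
  field_simp
  norm_num

variable {F L : Type} [Field F] [Fintype F] [DecidableEq F] [Fintype L] [DecidableEq L]

omit [Field F] in
theorem exists_large_fiber {Adv : Type} [Fintype Adv] (prep : (F ≃ L) → Adv) (s : ℕ)
    (hs : Fintype.card Adv ≤ 2 ^ s) (σ₀ : F ≃ L) :
    ∃ a : Adv, ∃ 𝓕 : Finset (F ≃ L), (∀ σ, σ ∈ 𝓕 ↔ prep σ = a) ∧ 𝓕.Nonempty ∧
      (Fintype.card (F ≃ L) : ℝ) ≤ 2 ^ s * 𝓕.card := by
  classical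
  by_contra hcon
  push Not at hcon
  have h1 : ∀ a : Adv, (2 : ℝ) ^ s * ((univ.filter fun σ : F ≃ L => prep σ = a).card : ℝ) <
      Fintype.card (F ≃ L) := by
    intro a
    by_cases hne : (univ.filter fun σ : F ≃ L => prep σ = a).Nonempty
    · exact hcon a _ (fun σ => by simp) hne
    · rw [not_nonempty_iff_eq_empty] at hne
      rw [hne]
      simp only [card_empty, CharP.cast_eq_zero, mul_zero, Nat.cast_pos]
      exact Fintype.card_pos_iff.2 ⟨σ₀⟩
  have h2 : (Fintype.card (F ≃ L) : ℝ) =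
      ∑ a : Adv, ((univ.filter fun σ : F ≃ L => prep σ = a).card : ℝ) := by
    have := card_eq_sum_card_fiberwise (f := prep) (s := (univ : Finset (F ≃ L)))
      (t := (univ : Finset Adv)) (fun _ _ => mem_coe.2 (mem_univ _))
    rw [card_univ] at this
    exact_mod_cast this
  have hne : (univ : Finset Adv).Nonempty := ⟨prep σ₀, mem_univ _⟩
  have h3 : ∑ a : Adv, (2 : ℝ) ^ s * ((univ.filter fun σ : F ≃ L => prep σ = a).card : ℝ) <
      ∑ _a : Adv, (Fintype.card (F ≃ L) : ℝ) := sum_lt_sum_of_nonempty hne fun a _ => h1 a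
  rw [← mul_sum, ← h2, sum_const, card_univ, nsmul_eq_mul] at h3
  have h4 : (Fintype.card Adv : ℝ) ≤ 2 ^ s := by exact_mod_cast hs
  have h5 : (0 : ℝ) ≤ Fintype.card (F ≃ L) := Nat.cast_nonneg _
  nlinarith

/-- **Main inequality.** -/
theorem main_ineq (hFL : Fintype.card F = Fintype.card L) (P : Finset F)
    (hP : 2 * P.card ≤ Fintype.card F) {Adv : Type} [Fintype Adv] (s T m : ℕ)
    (hs : Fintype.card Adv ≤ 2 ^ s) (prep : (F ≃ L) → Adv)
    {Ω : Type} [Fintype Ω] [Nonempty Ω] (Q : Ω → Adv → L → Prog F L)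
    (hcost : ∀ ω a l, (Q ω a l).Cost T m)
    (h1 : ∀ σ : F ≃ L, 4 * ∑ ω : Ω, (P.filter fun x => (Q ω (prep σ) (σ x)).run σ = false).card ≤
      Fintype.card Ω * P.card)
    (h2 : ∀ σ : F ≃ L, 4 * ∑ ω : Ω, (Pᶜ.filter fun x => (Q ω (prep σ) (σ x)).run σ = true).card ≤
      Fintype.card Ω * Pᶜ.card) :
    P.card ≤ 430 * 2 ^ m * (T + 1) ^ 2 * (s + 1) := by
  classical
  obtain ⟨σ₀⟩ : Nonempty (F ≃ L) := ⟨Fintype.equivOfCardEq hFL⟩
  obtain ⟨a, 𝓕, hmem, hne, hbig⟩ := exists_large_fiber prep s hs σ₀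
  set K : ℕ := 10 * (3 * T + 1) with hK
  have hK1 : 1 ≤ K := by omega
  have hK0 : (0 : ℝ) < K := by exact_mod_cast hK1
  set γ : ℝ := 1 - 1 / (K : ℝ) with hγ
  have hγ0 : 0 < γ := by
    rw [hγ, sub_pos, div_lt_one hK0]
    have : 1 < K := by omega
    exact_mod_cast this
  have hγ1 : γ ≤ 1 := by
    have : (0 : ℝ) ≤ 1 / K := by positivity
    rw [hγ]; linarith
  obtain ⟨π₀, hf0, hmax, hsize⟩ := exists_dense 𝓕 (2 ^ s) (by positivity) hbig hne γ hγ0
  set k := π₀.card with hk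
  -- size of `π₀`
  have hkle : k ≤ K * s := by
    by_contra hcon
    push Not at hcon
    have e1 : γ ^ k ≤ γ ^ (K * s + 1) := pow_le_pow_of_le_one hγ0.le hγ1 hcon
    have e2 : γ ^ (K * s) ≤ (1 / 2) ^ s := by
      rw [pow_mul]
      exact pow_le_pow_left₀ (pow_nonneg hγ0.le _) (gamma_pow_le K hK1) s
    have e3 : γ ^ (K * s + 1) < (1 / 2) ^ s := by
      rw [pow_succ]
      have : γ < 1 := by
        rw [hγ]
        have : (0 : ℝ) < 1 / K := by positivity
        linarith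
      have h3 : 0 < γ ^ (K * s) := pow_pos hγ0 _
      nlinarith
    have e4 : (2 : ℝ) ^ s * γ ^ k < 2 ^ s * (1 / 2) ^ s :=
      mul_lt_mul_of_pos_left (lt_of_le_of_lt e1 e3) (by positivity)
    rw [← mul_pow] at e4
    norm_num at e4
    linarith
  set ρ : ℝ := γ ^ (3 * T + 1) with hρ
  have hρ9 : 9 / 10 ≤ ρ := gamma_pow_ge (3 * T)
  -- nonempty extension set
  have hext : (ext π₀).Nonempty := by
    by_contra hcon
    rw [not_nonempty_iff_eq_empty] at hcon
    rw [wt, hcon, sum_empty] at hf0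
    exact lt_irrefl _ hf0
  obtain ⟨σ₁, hσ₁⟩ := hext
  have hpb : IsPB π₀ := isPB_of_mem_ext hσ₁
  have he : wt (fun _ => (1 : ℝ)) π₀ = ((Fintype.card L - k).factorial : ℝ) := by
    rw [← card_ext hpb hFL]
    simp [wt]
  have hfac : (0 : ℝ) < ((Fintype.card L - k).factorial : ℝ) := by
    exact_mod_cast Nat.factorial_pos _
  set Qa : Ω → L → Prog F L := fun ω => Q ω a with hQa
  set W : ℝ := (Fintype.card Ω : ℝ) with hW
  have hW0 : 0 < W := by rw [hW]; exact_mod_cast Fintype.card_pos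
  -- values
  set vl : Ω → F → Bool → ℝ := fun ω x b => val (hQ (Qa ω)) (lift π₀) x b with hvl
  have hvl' : ∀ ω x b, vl ω x b = wt (indB (fun σ => (Qa ω (σ x)).run σ) b) π₀ /
      ((Fintype.card L - k).factorial : ℝ) := by
    intro ω x b
    simp only [hvl, val, ev_lift, card_lift]
    rfl
  have hsum1 : ∀ ω x, vl ω x true + vl ω x false = 1 := by
    intro ω x
    rw [hvl', hvl', ← add_div, div_eq_one_iff_eq hfac.ne', ← he]
    unfold wt
    rw [← sum_add_distrib]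
    refine sum_congr rfl fun σ _ => ?_
    simp only [indB]
    by_cases hb : (Qa ω (σ x)).run σ = true
    · simp [hb]
    · rw [Bool.not_eq_true] at hb
      simp [hb]
  -- transfer
  have htr : ∀ ω x b, ρ * wt (fun σ => indS 𝓕 σ * indB (fun σ => (Qa ω (σ x)).run σ) b σ) π₀ ≤
      wt (indS 𝓕) π₀ * vl ω x b := by
    intro ω x b
    have := TP.query hγ0.le hγ1 hmax (hcost ω a) x b
    rw [hvl', ← mul_div_assoc, le_div_iff₀ hfac, ← he]
    exact this
  -- sums over sets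
  have hset : ∀ (Y : Finset F) (b : Bool),
      (∀ σ ∈ 𝓕, 3 * (W * Y.card) ≤
        4 * ∑ ω, ∑ x ∈ Y, indB (fun σ => (Qa ω (σ x)).run σ) b σ) →
      ρ * (3 / 4 * (W * Y.card)) ≤ ∑ ω, ∑ x ∈ Y, vl ω x b := by
    intro Y b hY
    have e1 : ρ * ∑ ω, ∑ x ∈ Y,
        wt (fun σ => indS 𝓕 σ * indB (fun σ => (Qa ω (σ x)).run σ) b σ) π₀ ≤
        wt (indS 𝓕) π₀ * ∑ ω, ∑ x ∈ Y, vl ω x b := by
      rw [mul_sum, mul_sum]
      refine sum_le_sum fun ω _ => ?_
      rw [mul_sum, mul_sum]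
      exact sum_le_sum fun x _ => htr ω x b
    have e2 : wt (indS 𝓕) π₀ * (3 / 4 * (W * Y.card)) ≤ ∑ ω, ∑ x ∈ Y,
        wt (fun σ => indS 𝓕 σ * indB (fun σ => (Qa ω (σ x)).run σ) b σ) π₀ := by
      have e3 : ∑ ω, ∑ x ∈ Y,
          wt (fun σ => indS 𝓕 σ * indB (fun σ => (Qa ω (σ x)).run σ) b σ) π₀ =
          ∑ σ ∈ ext π₀, indS 𝓕 σ *
            ∑ ω, ∑ x ∈ Y, indB (fun σ => (Qa ω (σ x)).run σ) b σ := by
        unfold wt
        simp only [mul_sum]
        rw [sum_comm]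
        refine Eq.trans ?_ sum_comm
        refine Eq.trans sum_comm ?_
        refine sum_congr rfl fun ω _ => ?_
        rw [sum_comm]
      rw [e3]
      unfold wt
      rw [sum_mul]
      refine sum_le_sum fun σ _ => ?_
      by_cases hσ : σ ∈ 𝓕
      · have := hY σ hσ
        simp only [indS, hσ, if_true, one_mul]
        linarith
      · simp [indS, hσ]
    have e3 : wt (indS 𝓕) π₀ * (ρ * (3 / 4 * (W * Y.card))) ≤
        wt (indS 𝓕) π₀ * ∑ ω, ∑ x ∈ Y, vl ω x b := by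
      refine le_trans ?_ e1
      have hρ0 : 0 ≤ ρ := by linarith
      have h5 := mul_le_mul_of_nonneg_left e2 hρ0
      refine le_trans (le_of_eq ?_) h5
      ring
    exact le_of_mul_le_mul_left e3 hf0
  have hYes : ρ * (3 / 4 * (W * P.card)) ≤ ∑ ω, ∑ x ∈ P, vl ω x true := by
    refine hset P true fun σ hσ => ?_
    have hp : prep σ = a := (hmem σ).1 hσ
    have := h1 σ
    rw [hp] at this
    have e1 : ∀ ω, ∑ x ∈ P, indB (fun σ => (Qa ω (σ x)).run σ) true σ =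
        (P.card : ℝ) - ((P.filter fun x => (Q ω a (σ x)).run σ = false).card : ℝ) := by
      intro ω
      have h3 := card_filter_add_card_filter_not (s := P) (fun x => (Q ω a (σ x)).run σ = true)
      simp only [Bool.not_eq_true] at h3
      simp only [indB, sum_boole]
      rw [← h3]
      push_cast
      ring
    simp only [e1]
    rw [sum_sub_distrib, sum_const, card_univ, nsmul_eq_mul, ← hW]
    have h4 : 4 * ∑ ω : Ω, ((P.filter fun x => (Q ω a (σ x)).run σ = false).card : ℝ) ≤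
        W * P.card := by
      rw [hW]
      exact_mod_cast this
    linarith
  have hNo : ρ * (3 / 4 * (W * (Pᶜ.card : ℝ))) ≤ ∑ ω, ∑ x ∈ Pᶜ, vl ω x false := by
    refine hset Pᶜ false fun σ hσ => ?_
    have hp : prep σ = a := (hmem σ).1 hσ
    have := h2 σ
    rw [hp] at this
    have e1 : ∀ ω, ∑ x ∈ Pᶜ, indB (fun σ => (Qa ω (σ x)).run σ) false σ =
        (Pᶜ.card : ℝ) - ((Pᶜ.filter fun x => (Q ω a (σ x)).run σ = true).card : ℝ) := by
      intro ω
      have h3 := card_filter_add_card_filter_not (s := Pᶜ) (fun x => (Q ω a (σ x)).run σ = true)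
      simp only [Bool.not_eq_true] at h3
      simp only [indB, sum_boole]
      rw [← h3]
      push_cast
      ring
    simp only [e1]
    rw [sum_sub_distrib, sum_const, card_univ, nsmul_eq_mul, ← hW]
    have h4 : 4 * ∑ ω : Ω, ((Pᶜ.filter fun x => (Q ω a (σ x)).run σ = true).card : ℝ) ≤
        W * Pᶜ.card := by
      rw [hW]
      exact_mod_cast this
    linarith
  -- the claim
  set α : ℝ := (2 ^ m : ℕ) * (T * (k + 1 + 3 * T)) + k with hα
  set β : ℝ := 3 * T * (k + 1 + 3 * T) / Fintype.card L + k / Fintype.card L with hβ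
  have hgood : ∀ x, Good (lift π₀) x := fun x => good_lift hpb x
  have hclaim : ∀ ω, ∃ q : Bool → ℝ, q true + q false = 1 ∧
      (P.card : ℝ) * q false - (α + β * P.card) ≤ ∑ x ∈ P, vl ω x false ∧
      (Pᶜ.card : ℝ) * q true - (α + β * Pᶜ.card) ≤ ∑ x ∈ Pᶜ, vl ω x true := by
    intro ω
    obtain ⟨q, hq0, hq1, hq⟩ := Claim.query hFL (hcost ω a) π₀
    rw [← hk] at hq
    exact ⟨q, hq1, hq false P (fun x _ => hgood x), hq true Pᶜ (fun x _ => hgood x)⟩
  choose qq hqq1 hqqP hqqC using hclaim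
  obtain ⟨q, hq1, hqP, hqC⟩ : ∃ q : Bool → ℝ, q true + q false = 1 ∧
      (P.card : ℝ) * q false - (α + β * P.card) ≤ (∑ ω, ∑ x ∈ P, vl ω x false) / W ∧
      (Pᶜ.card : ℝ) * q true - (α + β * Pᶜ.card) ≤ (∑ ω, ∑ x ∈ Pᶜ, vl ω x true) / W := by
    refine ⟨fun b => (∑ ω, qq ω b) / W, ?_, ?_, ?_⟩
    · rw [← add_div, ← sum_add_distrib]
      simp only [hqq1, sum_const, card_univ, nsmul_eq_mul, mul_one]
      rw [← hW]
      exact div_self hW0.ne'
    · rw [le_div_iff₀ hW0]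
      have h3 := sum_le_sum fun ω (_ : ω ∈ (univ : Finset Ω)) => hqqP ω
      rw [sum_sub_distrib, sum_const, card_univ, nsmul_eq_mul, ← hW, ← mul_sum] at h3
      refine le_trans (le_of_eq ?_) h3
      field_simp
    · rw [le_div_iff₀ hW0]
      have h3 := sum_le_sum fun ω (_ : ω ∈ (univ : Finset Ω)) => hqqC ω
      rw [sum_sub_distrib, sum_const, card_univ, nsmul_eq_mul, ← hW, ← mul_sum] at h3
      refine le_trans (le_of_eq ?_) h3
      field_simp
  have hP1 : (∑ ω, ∑ x ∈ P, vl ω x true) / W = P.card - (∑ ω, ∑ x ∈ P, vl ω x false) / W := by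
    have : ∑ ω, ∑ x ∈ P, (vl ω x true + vl ω x false) = W * P.card := by
      simp only [hsum1]; simp [hW]
    simp only [sum_add_distrib] at this
    field_simp
    linarith
  have hC1 : (∑ ω, ∑ x ∈ Pᶜ, vl ω x false) / W =
      Pᶜ.card - (∑ ω, ∑ x ∈ Pᶜ, vl ω x true) / W := by
    have : ∑ ω, ∑ x ∈ Pᶜ, (vl ω x true + vl ω x false) = W * (Pᶜ.card : ℝ) := by
      simp only [hsum1]; simp [hW]
    simp only [sum_add_distrib] at this
    field_simp
    linarith
  have hYes' : ρ * (3 / 4 * P.card) ≤ (∑ ω, ∑ x ∈ P, vl ω x true) / W := by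
    rw [le_div_iff₀ hW0]
    refine le_trans (le_of_eq ?_) hYes
    ring
  have hNo' : ρ * (3 / 4 * (Pᶜ.card : ℝ)) ≤ (∑ ω, ∑ x ∈ Pᶜ, vl ω x false) / W := by
    rw [le_div_iff₀ hW0]
    refine le_trans (le_of_eq ?_) hNo
    ring
  rw [hP1] at hYes'
  rw [hC1] at hNo'
  set sPf : ℝ := (∑ ω, ∑ x ∈ P, vl ω x false) / W with hsPf
  set sCt : ℝ := (∑ ω, ∑ x ∈ Pᶜ, vl ω x true) / W with hsCt
  rcases Nat.eq_zero_or_pos P.card with hP0 | hPpos
  · rw [hP0]; exact Nat.zero_le _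
  have hPR : (0 : ℝ) < P.card := by exact_mod_cast hPpos
  have hcompl : P.card ≤ Pᶜ.card := by
    rw [card_compl]; omega
  have hcomplR : (P.card : ℝ) ≤ Pᶜ.card := by exact_mod_cast hcompl
  have hCR : (0 : ℝ) < Pᶜ.card := lt_of_lt_of_le hPR hcomplR
  have hk0 : (0 : ℝ) ≤ k := Nat.cast_nonneg _
  have hT0 : (0 : ℝ) ≤ T := Nat.cast_nonneg _
  have hα0 : 0 ≤ α := by rw [hα]; positivity
  -- divide
  have d1 : 3 / 4 * ρ - α / P.card - β ≤ q true := by
    have h3 : (P.card : ℝ) * (3 / 4 * ρ) ≤ P.card * (1 - q false) + α + β * P.card := by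
      linarith
    have h4 : (P.card : ℝ) * (3 / 4 * ρ - α / P.card - β) ≤ P.card * q true := by
      have e : (P.card : ℝ) * (3 / 4 * ρ - α / P.card - β) =
          P.card * (3 / 4 * ρ) - α - β * P.card := by
        field_simp
      rw [e]
      have : 1 - q false = q true := by linarith
      rw [this] at h3
      linarith
    exact le_of_mul_le_mul_left h4 hPR
  have d2 : q true ≤ 1 - 3 / 4 * ρ + α / Pᶜ.card + β := by
    have h3 : (Pᶜ.card : ℝ) * q true ≤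
        Pᶜ.card * (1 - 3 / 4 * ρ) + α + β * Pᶜ.card := by
      linarith
    have h4 : (Pᶜ.card : ℝ) * q true ≤ Pᶜ.card * (1 - 3 / 4 * ρ + α / Pᶜ.card + β) := by
      have e : (Pᶜ.card : ℝ) * (1 - 3 / 4 * ρ + α / Pᶜ.card + β) =
          Pᶜ.card * (1 - 3 / 4 * ρ) + α + β * Pᶜ.card := by
        field_simp
      rw [e]
      exact h3
    exact le_of_mul_le_mul_left h4 hCR
  have d3 : α / (Pᶜ.card : ℝ) ≤ α / P.card := div_le_div_of_nonneg_left hα0 hPR hcomplR
  have hL2 : 2 * (P.card : ℝ) ≤ Fintype.card L := by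
    rw [← hFL]; exact_mod_cast hP
  have d4 : β ≤ (3 * T * (k + 1 + 3 * T) + k) / (2 * P.card) := by
    rw [hβ, ← add_div]
    exact div_le_div_of_nonneg_left (by positivity) (by positivity) hL2
  have d5 : (35 : ℝ) / 100 ≤ 2 * (α / P.card) + 2 * β := by linarith
  have d6 : (35 : ℝ) / 100 * P.card ≤ 2 * α + (3 * T * (k + 1 + 3 * T) + k) := by
    have h3 : (35 : ℝ) / 100 ≤ 2 * (α / P.card) +
        2 * ((3 * T * (k + 1 + 3 * T) + k) / (2 * P.card)) := by linarith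
    have h4 := mul_le_mul_of_nonneg_right h3 hPR.le
    have e : (2 * (α / P.card) + 2 * ((3 * T * (k + 1 + 3 * T) + k) / (2 * P.card))) *
        (P.card : ℝ) = 2 * α + (3 * T * (k + 1 + 3 * T) + k) := by
      field_simp
    rw [e] at h4
    exact h4
  have hm1 : (1 : ℝ) ≤ 2 ^ m := one_le_pow₀ (by norm_num)
  have hkR : (k : ℝ) ≤ 10 * (3 * T + 1) * s := by
    have : (k : ℝ) ≤ ((K * s : ℕ) : ℝ) := by exact_mod_cast hkle
    rw [hK] at this
    push_cast at this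
    exact this
  have hs0 : (0 : ℝ) ≤ s := Nat.cast_nonneg _
  have d7 : (35 : ℝ) / 100 * P.card ≤ 5 * 2 ^ m * ((T + 1) * (k + 1 + 3 * T)) := by
    refine d6.trans ?_
    rw [hα]
    push_cast
    have h3 : (0 : ℝ) ≤ T * (k + 1 + 3 * T) := by positivity
    have h4 : (k : ℝ) ≤ 2 ^ m * k := le_mul_of_one_le_left hk0 hm1
    have h5 : (T : ℝ) * (k + 1 + 3 * T) ≤ 2 ^ m * (T * (k + 1 + 3 * T)) :=
      le_mul_of_one_le_left h3 hm1
    have h6 : (0 : ℝ) ≤ 2 ^ m := by positivity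
    have h7 : (0 : ℝ) ≤ 2 ^ m * T := by positivity
    linarith
  have d8 : (k : ℝ) + 1 + 3 * T ≤ 3 * (T + 1) * (10 * (s + 1)) := by
    linarith
  have d9 : (35 : ℝ) / 100 * P.card ≤ 5 * 2 ^ m * ((T + 1) * (3 * (T + 1) * (10 * (s + 1)))) := by
    refine d7.trans ?_
    have : (0 : ℝ) ≤ 5 * 2 ^ m * (T + 1) := by positivity
    linarith [mul_le_mul_of_nonneg_left d8 this]
  have d10 : (P.card : ℝ) ≤ 430 * 2 ^ m * (T + 1) ^ 2 * (s + 1) := by
    have h3 : (0 : ℝ) ≤ 2 ^ m * (T + 1) ^ 2 * (s + 1) := by positivity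
    linarith
  exact_mod_cast d10

end Pool.Agent.H93.Gen
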